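import Pool.Agent.Helper2.SV.GoalsP

/-!
# Project SV, packet MC0: the derived properties of a minimal counterexample
-/

set_option autoImplicit false

namespace Pool.Agent.Helper8.SV

open Pool.Agent.Helper2.SV

variable {V : Type}

/-- A vertex adjacent to all of a clique of maximum weight gives a heavier clique. -/
lemma mc0_max {G : SimpleGraph V} {w : V → ℕ} (pos : ∀ v, 0 < w v) (K : Finset V)
    (hK : TC G w K) (z : V) : ¬ ∀ x ∈ K, G.Adj z x := by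
  classical
  intro hz
  have hzK : z ∉ K := fun h => (hz z h).ne rfl
  have h1 : Clq G (↑(insert z K) : Set V) := by
    rw [Finset.coe_insert]
    exact hK.2.1.insert (fun x hx _ => hz x hx)
  have h2 := hK.2.2 (insert z K) h1
  rw [Finset.sum_insert hzK] at h2
  have := pos z
  omega

lemma mc0_tight {G : SimpleGraph V} {w : V → ℕ} (pos : ∀ v, 0 < w v) (K : Finset V)
    (hK : TC G w K) (S : Set V) (hS : (↑K : Set V) ⊆ S) :
    Tight G w S K ∧ 0 < ∑ x ∈ K, w x := by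
  refine ⟨⟨hS, hK.2.1, fun L _ hL => hK.2.2 L hL⟩, ?_⟩
  exact Finset.sum_pos (fun i _ => pos i) hK.1

/-- The field `ih` of `MF0`. -/
lemma mc0_ih {G : SimpleGraph V} {w : V → ℕ} (h : MinCE G w) (S : Set V)
    (hS : S ≠ Set.univ) : ∃ A ⊆ S, Perf G A ∧
      ∀ K : Finset V, TC G w K → (↑K : Set V) ⊆ S → ∃ x ∈ K, x ∈ A := by
  obtain ⟨A, hA1, hA2, hA3⟩ := h.ih S hS w
  refine ⟨A, hA1, hA2, fun K hK hKS => ?_⟩
  obtain ⟨h1, h2⟩ := mc0_tight h.pos K hK S hKS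
  exact hA3 K h1 h2

lemma mc0_conn (h1 : G_GLUE) [Finite V] {G : SimpleGraph V} {w : V → ℕ} (h : MinCE G w) :
    Conn G := by
  intro S hne hS
  by_contra hno
  push Not at hno
  have hSc : Sᶜ ≠ (Set.univ : Set V) := by
    intro h2
    obtain ⟨x, hx⟩ := hne
    have : x ∈ Sᶜ := by rw [h2]; trivial
    exact this hx
  obtain ⟨B1, hB1, hP1, hT1⟩ := mc0_ih h S hS
  obtain ⟨B2, hB2, hP2, hT2⟩ := mc0_ih h Sᶜ hSc
  have hP : Perf G (B1 ∪ B2) := by
    refine h1.1 V G B1 B2 hP1 hP2 ?_ ?_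
    · rintro x ⟨hx1, hx2⟩
      exact absurd (hB1 hx1) (hB2 hx2)
    · intro x hx _ y hy _
      exact hno x (hB1 hx) y (hB2 hy)
  obtain ⟨K, hK, hKB⟩ := h.bad _ hP
  by_cases hKS : (↑K : Set V) ⊆ S
  · obtain ⟨x, hx, hxB⟩ := hT1 K hK hKS
    exact hKB x hx (Or.inl hxB)
  · obtain ⟨y, hyK, hyS⟩ := Set.not_subset.mp hKS
    have hKc : (↑K : Set V) ⊆ Sᶜ := by
      intro x hx hxS
      have hxy : x ≠ y := by
        rintro rfl
        exact hyS hxS
      exact hno x hxS y hyS (hK.2.1 x hx y hyK hxy)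
    obtain ⟨x, hx, hxB⟩ := hT2 K hK hKc
    exact hKB x hx (Or.inr hxB)

lemma mc0_nperf (h1 : G_GLUE) [Finite V] {G : SimpleGraph V} {w : V → ℕ} (h : MinCE G w)
    (v : V) : ¬ Perf G (Mn G v) := by
  intro hP
  have hP' : Perf G (insert v (Mn G v)) := by
    refine h1.2.2 V G (Mn G v) v hP ?_
    rintro x ⟨hx, hx2⟩
    exact absurd hx2 hx.2
  obtain ⟨K, hK, hKB⟩ := h.bad _ hP'
  refine mc0_max h.pos K hK v (fun x hx => ?_)
  have h2 := hKB x hx
  have hxv : x ≠ v := fun h3 => h2 (Or.inl h3)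
  by_contra h3
  exact h2 (Or.inr ⟨hxv, h3⟩)

lemma mc0_free (h1 : G_GLUE) [Finite V] {G : SimpleGraph V} {w : V → ℕ} (h : MinCE G w)
    (B : Set V) (hB : Perf G B) : ∃ K : Finset V, TC G w K ∧ (∀ x ∈ K, x ∉ B) ∧
    ∀ v ∈ K, ¬ Clq G {x | G.Adj v x ∧ x ∉ K} := by
  obtain ⟨B', hBB', hmax⟩ := (Set.toFinite {B : Set V | Perf G B}).exists_le_maximal hB
  have hP' : Perf G B' := hmax.prop
  obtain ⟨K, hK, hKB⟩ := h.bad B' hP'
  refine ⟨K, hK, fun x hx hxB => hKB x hx (hBB' hxB), fun v hv hc => ?_⟩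
  have h2 : Perf G (insert v B') := by
    refine h1.2.2 V G B' v hP' (hc.mono ?_)
    rintro x ⟨hx, hvx⟩
    exact ⟨hvx, fun hxK => hKB x hxK hx⟩
  have h3 : insert v B' ⊆ B' := hmax.le_of_ge h2 (Set.subset_insert v B')
  exact hKB v hv (h3 (Set.mem_insert v B'))

theorem goalMC0 (h1 : G_GLUE) : G_MC0 := by
  intro V _ G w h
  exact
    { conn := mc0_conn h1 h
      nperf := mc0_nperf h1 h
      free := mc0_free h1 h
      ih := mc0_ih h
      max := mc0_max h.pos }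

end Pool.Agent.Helper8.SV
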